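import Pool.Agent.H43.PS.Targets

/-! DTD: derivative of the determinant. -/

namespace H43.PS

open Matrix Finset

theorem DTD : T_DTD := by
  intro κ _ _ S₀ P hS _ hdet
  have hd0 : 0 < S₀.det := hS.det_pos
  have hu : IsUnit S₀.det := isUnit_iff_ne_zero.2 hd0.ne'
  set K : Matrix κ κ ℝ := S₀⁻¹ * (P - S₀) with hK
  have hKtr : K.trace = (S₀⁻¹ * P).trace - Fintype.card κ := by
    rw [hK, Matrix.mul_sub, Matrix.nonsing_inv_mul _ hu, Matrix.trace_sub, Matrix.trace_one]
  have hfac : ∀ t : ℝ, (S₀ + t • (P - S₀)).det = S₀.det * (1 + t • K).det := by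
    intro t
    rw [← Matrix.det_mul, Matrix.mul_add, Matrix.mul_one, Matrix.mul_smul, hK,
      Matrix.mul_nonsing_inv_cancel_left _ _ hu]
  have hle : ∀ t : ℝ, 0 ≤ t → t ≤ 1 → (1 + t • K).det ≤ 1 := by
    intro t h0 h1
    have h2 := hdet t h0 h1
    rw [hfac] at h2
    by_contra h3
    push Not at h3
    nlinarith
  set q : Polynomial ℝ := (Matrix.det (1 + (Polynomial.X : Polynomial ℝ) •
    K.map (Polynomial.C))).divX.divX with hq
  have hexp : ∀ t : ℝ, (1 + t • K).det = 1 + K.trace * t + q.eval t * t ^ 2 :=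
    fun t => Matrix.det_one_add_smul t K
  by_contra hcon
  push Not at hcon
  have hpos : 0 < K.trace := by
    rw [hKtr]
    linarith
  -- q.eval t is continuous at 0
  have hc : Continuous fun t : ℝ => K.trace + q.eval t * t := by
    have := q.continuous
    fun_prop
  have h0 : (fun t : ℝ => K.trace + q.eval t * t) 0 = K.trace := by simp
  have hev : ∀ᶠ t in nhds (0 : ℝ), 0 < K.trace + q.eval t * t := by
    have := hc.tendsto 0
    simp only [mul_zero, add_zero] at this
    exact this.eventually (lt_mem_nhds hpos)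
  obtain ⟨ε, hε, hball⟩ := Metric.eventually_nhds_iff.1 hev
  set t : ℝ := min (ε / 2) 1 with ht
  have ht0 : 0 < t := lt_min (by linarith) one_pos
  have h1 : 0 < K.trace + q.eval t * t := by
    apply hball
    rw [Real.dist_eq, sub_zero, abs_of_pos ht0]
    have : t ≤ ε / 2 := min_le_left _ _
    linarith
  have h2 := hle t ht0.le (min_le_right _ _)
  rw [hexp] at h2
  have h3 : 0 < t * (K.trace + q.eval t * t) := mul_pos ht0 h1
  nlinarith

end H43.PS
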